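import Pool.Agent.H29.FL4.Stmts

/-! # Row SEQ of the board `fl4` -/

set_option autoImplicit false

open Matrix MeasureTheory

namespace Pool.FL4

open Pool.FLT

theorem seq : SEQStmt := by
  intro i
  induction i with
  | zero =>
    have hP : P 0 = 1 := rfl
    have hQ : Q 0 = 0 := rfl
    rw [hP, hQ]
    refine ⟨by norm_num, by norm_num, by norm_num, by norm_num, by norm_num, ?_, ?_, by norm_num⟩
    · simp
    · simp
  | succ i ih =>
    have hP : P (i + 1) = 17 * P i + 24 * Q i := rfl
    have hQ : Q (i + 1) = 12 * P i + 17 * Q i := rfl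
    have hs : (√2 : ℝ) ^ 2 = 2 := Real.sq_sqrt (by norm_num)
    obtain ⟨h1, h2, h3, h4, h5, h6, h7, h8⟩ := ih
    rw [hP, hQ]
    refine ⟨?_, ?_, ?_, ?_, ?_, ?_, ?_, ?_⟩
    · have e : (17 * P i + 24 * Q i) ^ 2 - 2 * (12 * P i + 17 * Q i) ^ 2 =
        P i ^ 2 - 2 * Q i ^ 2 := by ring
      rw [e, h1]
    · omega
    · omega
    · omega
    · omega
    · rw [pow_succ, ← h6]
      push_cast
      linear_combination (-12 * (Q i : ℝ)) * hs
    · rw [pow_succ, ← h7]
      push_cast
      linear_combination (-12 * (Q i : ℝ)) * hs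
    · rw [pow_succ]
      omega

end Pool.FL4
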